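import Pool.Agent.V11319.MCDataF

/-!
The number `f 50 = 8000` is non-MC.
The notions `inside`, `Encloses`, `IsMCCircle`, `IsMC` are in `Pool.Agent.V11319.MCDefs`.
-/

namespace Pool.Agent.Results.MP_2ab2dc_nt.FNonMC

open Pool.Agent.V11319.MC

/-- `f k` is the number of lattice points enclosed by the circle with centre `(1/2, 1/2)` and
radius `√(k ^ 2 + k + 1/2)`. -/
noncomputable def f (k : ℕ) : ℕ :=
  (inside (1 / 2) (1 / 2) (Real.sqrt ((k : ℝ) ^ 2 + k + 1 / 2))).ncard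

lemma f50 : f 50 = 8000 := by
  obtain ⟨F, h1, h2⟩ := exCount_spec (s := 10202) (w := 2) (u := 1) (v := 1)
    [51, 51, 51, 51, 51, 51, 51, 50, 50, 50, 50, 50, 49, 49, 49, 49, 48, 48, 47, 47, 47, 46, 46,
      45, 45, 44, 43, 43, 42, 41, 41, 40, 39, 38, 37, 36, 35, 34, 33, 32, 31, 29, 28, 26, 24, 22,
      20, 18, 15, 11, 1]
    [51, 51, 51, 51, 51, 51, 51, 51, 50, 50, 50, 50, 50, 49, 49, 49, 48, 48, 48, 47, 47, 46, 46,
      45, 45, 44, 44, 43, 43, 42, 41, 40, 40, 39, 38, 37, 36, 35, 34, 33, 31, 30, 29, 27, 25, 23,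
      21, 19, 16, 13, 8] (by norm_num) (by norm_num) (by norm_num) (by decide +kernel)
  have h3 : F.card = 8000 := by
    rw [h1]
    decide +kernel
  rw [f, ← h3, ← Set.ncard_coe_finset]
  congr 1
  ext p
  rw [inside, Set.mem_ofPred_eq, Finset.mem_coe, h2, Real.sq_sqrt (by positivity), nrm]
  have e : ((p.1 : ℝ) - 1 / 2) ^ 2 + ((p.2 : ℝ) - 1 / 2) ^ 2 =
      (((2 * p.1 - 1) ^ 2 + (2 * p.2 - 1) ^ 2 : ℤ) : ℝ) / 4 := by
    push_cast; ring
  rw [e]
  constructor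
  · intro h
    have : ((((2 * p.1 - 1) ^ 2 + (2 * p.2 - 1) ^ 2 : ℤ)) : ℝ) < ((10202 : ℤ) : ℝ) := by
      push_cast; linarith
    have := Int.cast_lt.1 this
    push_cast
    exact this
  · intro h
    have : ((((2 * p.1 - 1) ^ 2 + (2 * p.2 - 1) ^ 2 : ℤ)) : ℝ) < ((10202 : ℤ) : ℝ) := by
      exact_mod_cast h
    push_cast at this
    linarith

/-- `f 50 = 8000` is non-MC; in particular `f k` is not MC for every `k ≥ 1`. -/
theorem result : f 50 = 8000 ∧ ¬ IsMC (f 50) := by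
  refine ⟨f50, ?_⟩
  rw [f50]
  exact not_isMC_8000

end Pool.Agent.Results.MP_2ab2dc_nt.FNonMC
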